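import Pool.Agent.Helper61.QT.GoalsP

/-!
# Project QT+ (MP_0ebdb3_gt), packet P-KS: `G_GKC` for sheared planes
-/

set_option autoImplicit false

open Set

namespace Pool.Agent.Helper12.QT

open Pool.Agent.Helper61 Pool.Agent.Helper61.QG Pool.Agent.Helper61.QT
open Pool.Agent.Helper61.QS (V En rk R4 IsCurv SecNN Gam dd)
open Pool.Agent.Helper61.QM (Model W2 Mab pol2 act2 o1 o2 rot IsRe IsIm)

section nat

variable {F F' G : Type} [NormedAddCommGroup F] [NormedSpace ℝ F]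
  [NormedAddCommGroup F'] [NormedSpace ℝ F'] [NormedAddCommGroup G] [NormedSpace ℝ G]

/-- derivatives and a linear change of variables -/
theorem fd (L : F ≃L[ℝ] F') (f : F → G) (f' : F' → G) (h : ∀ y, f y = f' (L y)) (z a : F) :
    fderiv ℝ f z a = fderiv ℝ f' (L z) (L a) := by
  have h1 : f = f' ∘ L := funext h
  rw [h1, ContinuousLinearEquiv.comp_right_fderiv]
  rfl

theorem dd_eq (L : F ≃L[ℝ] F') (f : F → ℝ) (f' : F' → ℝ) (h : ∀ y, f y = f' (L y))
    (z a b : F) : dd f z a b = dd f' (L z) (L a) (L b) := by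
  unfold dd
  exact fd L _ (fun y' => fderiv ℝ f' y' (L b)) (fun y => fd L f f' h y b) z a

theorem gam_eq (L : F ≃L[ℝ] F') (g : F → F →L[ℝ] F →L[ℝ] ℝ) (g' : F' → F' →L[ℝ] F' →L[ℝ] ℝ)
    (h : ∀ z a b, g z a b = g' (L z) (L a) (L b)) (z a b c : F) :
    Gam g z a b c = Gam g' (L z) (L a) (L b) (L c) := by
  unfold Gam
  rw [fd L (fun y => g y b c) (fun y' => g' y' (L b) (L c)) (fun y => h y b c),
    fd L (fun y => g y a c) (fun y' => g' y' (L a) (L c)) (fun y => h y a c),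
    fd L (fun y => g y a b) (fun y' => g' y' (L a) (L b)) (fun y => h y a b)]

/-- naturality of the curvature number under a linear change of variables -/
theorem curv_of (L : F ≃L[ℝ] F') (g : F → F →L[ℝ] F →L[ℝ] ℝ) (g' : F' → F' →L[ℝ] F' →L[ℝ] ℝ)
    (h : ∀ z a b, g z a b = g' (L z) (L a) (L b)) (z a b : F) (K : ℝ)
    (hK : IsCurv g' (L z) (L a) (L b) K) : IsCurv g z a b K := by
  obtain ⟨cab', caa', cbb', h1, h2, h3, h4⟩ := hK
  have e1 := dd_eq L (fun y => g y b b) (fun y' => g' y' (L b) (L b)) (fun y => h y b b) z a a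
  have e2 := dd_eq L (fun y => g y a a) (fun y' => g' y' (L a) (L a)) (fun y => h y a a) z b b
  have e3 := dd_eq L (fun y => g y a b) (fun y' => g' y' (L a) (L b)) (fun y => h y a b) z a b
  obtain ⟨cab, rfl⟩ := L.surjective cab'
  obtain ⟨caa, rfl⟩ := L.surjective caa'
  obtain ⟨cbb, rfl⟩ := L.surjective cbb'
  refine ⟨cab, caa, cbb, fun x => ?_, fun x => ?_, fun x => ?_, ?_⟩
  · rw [h, gam_eq L g g' h]
    exact h1 (L x)
  · rw [h, gam_eq L g g' h]
    exact h2 (L x)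
  · rw [h, gam_eq L g g' h]
    exact h3 (L x)
  · rw [h4, e1, e2, e3, h, h]

end nat

/-- the shear -/
noncomputable def shL (c1 c2 d1 d2 : ℝ) : R4 ≃L[ℝ] R4 :=
  LinearEquiv.toContinuousLinearEquiv
    { toFun := fun y => (y.1, y.2.1, y.2.2.1 + c1 * y.1 + d1 * y.2.1,
        y.2.2.2 + c2 * y.1 + d2 * y.2.1)
      invFun := fun y => (y.1, y.2.1, y.2.2.1 - c1 * y.1 - d1 * y.2.1,
        y.2.2.2 - c2 * y.1 - d2 * y.2.1)
      map_add' := by
        intro x y
        refine Prod.ext ?_ (Prod.ext ?_ (Prod.ext ?_ ?_))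
        · rfl
        · rfl
        · simp only [Prod.fst_add, Prod.snd_add]; ring
        · simp only [Prod.fst_add, Prod.snd_add]; ring
      map_smul' := by
        intro t x
        refine Prod.ext ?_ (Prod.ext ?_ (Prod.ext ?_ ?_))
        · rfl
        · rfl
        · simp only [Prod.smul_fst, Prod.smul_snd, smul_eq_mul, RingHom.id_apply]; ring
        · simp only [Prod.smul_fst, Prod.smul_snd, smul_eq_mul, RingHom.id_apply]; ring
      left_inv := by
        intro x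
        refine Prod.ext ?_ (Prod.ext ?_ (Prod.ext ?_ ?_))
        · rfl
        · rfl
        · show x.2.2.1 + c1 * x.1 + d1 * x.2.1 - c1 * x.1 - d1 * x.2.1 = x.2.2.1
          ring
        · show x.2.2.2 + c2 * x.1 + d2 * x.2.1 - c2 * x.1 - d2 * x.2.1 = x.2.2.2
          ring
      right_inv := by
        intro x
        refine Prod.ext ?_ (Prod.ext ?_ (Prod.ext ?_ ?_))
        · rfl
        · rfl
        · show x.2.2.1 - c1 * x.1 - d1 * x.2.1 + c1 * x.1 + d1 * x.2.1 = x.2.2.1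
          ring
        · show x.2.2.2 - c2 * x.1 - d2 * x.2.1 + c2 * x.1 + d2 * x.2.1 = x.2.2.2
          ring }

theorem shL_apply (c1 c2 d1 d2 : ℝ) (y : R4) :
    shL c1 c2 d1 d2 y = (y.1, y.2.1, y.2.2.1 + c1 * y.1 + d1 * y.2.1,
        y.2.2.2 + c2 * y.1 + d2 * y.2.1) := rfl

section polar

variable {WW : Type} [NormedAddCommGroup WW] [NormedSpace ℝ WW]

theorem isPolar_comp (M : Model WW) (p : R4 → WW) (Reg : Set R4) (h : IsPolar M p Reg)
    (L : R4 ≃L[ℝ] R4) : IsPolar M (fun y => p (L y)) (L ⁻¹' Reg) := by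
  have hf : ∀ y c, fderiv ℝ (fun y => p (L y)) y c = fderiv ℝ p (L y) (L c) := fun y c =>
    fd L (fun y => p (L y)) p (fun y => rfl) y c
  refine ⟨h.smooth.comp L.contDiff, fun x => h.mem (L x), fun x c => ?_,
    h.isOpen.preimage L.continuous, h.dense.preimage L.toHomeomorph.isOpenMap, fun x hx c hc => ?_⟩
  · rw [hf]; exact h.tan (L x) (L c)
  · rw [hf] at hc
    have h1 := h.trans (L x) hx (L c) hc
    exact L.map_eq_zero_iff.1 h1

theorem gB_comp (gM : WW → WW →L[ℝ] WW →L[ℝ] ℝ) (p : R4 → WW) (L : R4 ≃L[ℝ] R4) (z a b : R4) :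
    gB gM (fun y => p (L y)) z a b = gB gM p (L z) (L a) (L b) := by
  have hf : ∀ y c, fderiv ℝ (fun y => p (L y)) y c = fderiv ℝ p (L y) (L c) := fun y c =>
    fd L (fun y => p (L y)) p (fun y => rfl) y c
  show gM (p (L z)) (fderiv ℝ (fun y => p (L y)) z a) (fderiv ℝ (fun y => p (L y)) z b) =
    gM (p (L z)) (fderiv ℝ p (L z) (L a)) (fderiv ℝ p (L z) (L b))
  rw [hf, hf]

theorem FG_comp {n : ℕ} (B : WW → WW →L[ℝ] En n) (p : R4 → WW) (L : R4 ≃L[ℝ] R4) (z : R4) :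
    FG B (fun y => p (L y)) z = Fcd B p (L z) (L (1, 0, 0, 0)) (L (0, 1, 0, 0)) := by
  have hf : ∀ y c, fderiv ℝ (fun y => p (L y)) y c = fderiv ℝ p (L y) (L c) := fun y c =>
    fd L (fun y => p (L y)) p (fun y => rfl) y c
  have hb : ∀ y, bG B (fun y => p (L y)) y =
      B (p (L y)) (fderiv ℝ p (L y) (L (1, 0, 0, 0))) := fun y => by
    unfold bG
    rw [hf]
  have hc : ∀ y, cG B (fun y => p (L y)) y =
      B (p (L y)) (fderiv ℝ p (L y) (L (0, 1, 0, 0))) := fun y => by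
    unfold cG
    rw [hf]
  unfold FG Fcd
  rw [fd L (cG B (fun y => p (L y)))
      (fun y' => B (p y') (fderiv ℝ p y' (L (0, 1, 0, 0)))) hc z (1, 0, 0, 0),
    fd L (bG B (fun y => p (L y)))
      (fun y' => B (p y') (fderiv ℝ p y' (L (1, 0, 0, 0)))) hb z (0, 1, 0, 0), hb, hc]

end polar

/-- **Packet P-KS** -/
theorem goalKS (h0 : G_GKC) : G_KS := by
  intro WW _ _ M p Reg k n e B gM γ ρ hpol hb hM hF hρ hT x0 hx0 c1 c2 d1 d2 K hK
  obtain ⟨L, hL⟩ : ∃ L : R4 ≃L[ℝ] R4, L = shL c1 c2 d1 d2 := ⟨_, rfl⟩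
  have hr : L (1, 0, 0, 0) = (1, 0, c1, c2) := by
    rw [hL, shL_apply]
    simp
  have hs : L (0, 1, 0, 0) = (0, 1, d1, d2) := by
    rw [hL, shL_apply]
    simp
  have hx : L (L.symm x0) = x0 := L.apply_symm_apply x0
  have hK' : IsCurv (gB gM (fun y => p (L y))) (L.symm x0) (1, 0, 0, 0) (0, 1, 0, 0) K := by
    refine curv_of L _ (gB gM p) (fun z a b => gB_comp gM p L z a b) _ _ _ K ?_
    rw [hx, hr, hs]
    exact hK
  have hm : L.symm x0 ∈ L ⁻¹' Reg := by
    rw [mem_preimage, hx]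
    exact hx0
  obtain ⟨h1, h2⟩ := h0 WW M (fun y => p (L y)) (L ⁻¹' Reg) k n e B gM γ ρ
    (isPolar_comp M p Reg hpol L) hb hM hF hρ hT (L.symm x0) hm K hK'
  refine ⟨h1, fun hK0 => ?_⟩
  have h3 := h2 hK0
  rw [FG_comp, hx, hr, hs] at h3
  exact h3

end Pool.Agent.Helper12.QT
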